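import Pool.Agent.TH977.IP.Fin1

set_option autoImplicit false

/-!
The random walk model is asymptotically exact, in total variation, for the waiting times in long blocks
of odd steps along complete trajectories of the `3x+1` function.

For an odd number `n` let `Syr n` be the next odd number of its trajectory and `wait n j` the number of
steps of `T` between the odd numbers number `j` and `j + 1` of the trajectory. In the model the waiting
times are independent and equal to `m` with probability `2 ^ (-m)`, `m ≥ 1`. The first `K` odd steps are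
cut into consecutive blocks of lengths at least `κ log X`, where `K` may be as large as
`(1 - κ) log X / log (4 / 3)`: after this number of odd steps typical trajectories of the `n ≤ X` have
size about `X ^ κ`. The law of the vector of the sums of the waiting times in the blocks, for the odd
`n ≤ X` in any set `P` invariant under `T`, is as close as we like, in total variation and uniformly in
the blocks, to its law in the model. For the numbers which reach `1` this holds jointly with the central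
limit theorem for the total stopping time of the odd number reached after the last block.
-/

namespace Pool.Agent.Results.MP_f7abf1_nt.BlockLaw

open Filter Topology MeasureTheory ProbabilityTheory

/-- the `3x+1` function -/
def T (n : ℕ) : ℕ := if n % 2 = 0 then n / 2 else (3 * n + 1) / 2

/-- the odd number `(3 n + 1) / 2 ^ e`; for odd `n` the next odd number in the trajectory of `n` -/
def Syr (n : ℕ) : ℕ := (3 * n + 1) / 2 ^ padicValNat 2 (3 * n + 1)

/-- for odd `n` the number of steps of `T` from the odd number number `j` of the trajectory to the next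
odd number (`n` itself is number `0`) -/
def wait (n j : ℕ) : ℕ := padicValNat 2 (3 * Syr^[j] n + 1)

/-- the sums of the sequence `a` over the blocks `[K 0, K 1), ..., [K (r-1), K r)` -/
def blocks (K : ℕ → ℕ) (r : ℕ) (a : ℕ → ℕ) : Fin r → ℕ := fun i => ∑ j ∈ Finset.Ico (K i) (K (i + 1)), a j

/-- blocks of lengths at least `κ log X` which cover `[0, K r)`, `K r ≤ (1 - κ) log X / log (4/3)` -/
def Admissible (κ : ℝ) (X r : ℕ) (K : ℕ → ℕ) : Prop :=
  K 0 = 0 ∧ (∀ i < r, (K i : ℝ) + κ * Real.log X ≤ K (i + 1)) ∧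
    (K r : ℝ) ≤ (1 - κ) * Real.log X / Real.log (4 / 3)

/-- `1 / 2` -/
noncomputable def half : unitInterval := ⟨1 / 2, by norm_num, by norm_num⟩

/-- the law of a sequence of independent random variables with the geometric law: each of them is `m`
with probability `2 ^ (-m-1)`, `m = 0, 1, 2, ...` -/
noncomputable def model : Measure (ℕ → ℕ) := Measure.infinitePi fun _ => geometricMeasure half

/-- the probability in the model that the vector of the sums of the waiting times `ω j + 1` in the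
blocks is in `E` -/
noncomputable def prob (K : ℕ → ℕ) (r : ℕ) (E : Set (Fin r → ℕ)) : ℝ :=
  model.real {ω | blocks K r (fun j => ω j + 1) ∈ E}

/-- the number of the odd `n ≤ X` with the property `P` -/
noncomputable def oddCount (X : ℕ) (P : ℕ → Prop) : ℝ := ({n : ℕ | n ≤ X ∧ Odd n ∧ P n}.ncard : ℝ)

/-- the positive integers with the property `P` have the natural density `δ` -/
def HasDensity (P : ℕ → Prop) (δ : ℝ) : Prop :=
  Tendsto (fun N : ℕ => ({n : ℕ | 1 ≤ n ∧ n ≤ N ∧ P n}.ncard : ℝ) / N) atTop (𝓝 δ)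

/-- `2 / log (4/3) * log n + z * log 3 * √(2 log n / (log (4/3))^3)` -/
noncomputable def bound (z : ℝ) (n : ℕ) : ℝ :=
  2 / Real.log (4 / 3) * Real.log n
    + z * (Real.log 3 * Real.sqrt (2 * Real.log n / Real.log (4 / 3) ^ 3))

/-- The distribution function of the standard normal law. -/
noncomputable def Phi (x : ℝ) : ℝ :=
  ProbabilityTheory.cdf (ProbabilityTheory.gaussianReal 0 1) x

open Pool.Agent.TH977.IP Pool.Agent.H499R2.ND

theorem model_eq : model = TJ.PP := rfl

theorem sy_cast (n : ℕ) : Sy 1 (n : ℤ) = (Syr n : ℤ) ∧ ex 1 (n : ℤ) = padicValNat 2 (3 * n + 1) := by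
  have h : ex 1 (n : ℤ) = padicValNat 2 (3 * n + 1) := by
    unfold ex
    have e : (3 * (n : ℤ) + 1) = ((3 * n + 1 : ℕ) : ℤ) := by push_cast; ring
    rw [e, padicValInt.of_nat]
  refine ⟨?_, h⟩
  unfold Sy Syr
  rw [h]
  push_cast
  rfl

theorem iter_cast (n k : ℕ) : (Sy 1)^[k] (n : ℤ) = ((Syr^[k] n : ℕ) : ℤ) := by
  induction k with
  | zero => rfl
  | succ k ih => rw [Function.iterate_succ_apply', Function.iterate_succ_apply', ih, (sy_cast _).1]

theorem wait_cast (n : ℕ) : (fun j => ex 1 ((Sy 1)^[j] (n : ℤ))) = wait n := by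
  funext j
  rw [iter_cast, (sy_cast _).2]
  rfl

/-- the list form of a set of vectors -/
def EL {r : ℕ} (E : Set (Fin r → ℕ)) (l : List ℕ) : Prop := ∃ t ∈ E, List.ofFn t = l

theorem EL_iff {K : ℕ → ℕ} {r : ℕ} (h0 : K 0 = 0) (hK : ∀ i < r, K i ≤ K (i + 1)) (E : Set (Fin r → ℕ))
    (a : ℕ → ℕ) : EL E (stf (List.ofFn fun i : Fin r => K (i + 1) - K i) a) ↔ blocks K r a ∈ E := by
  have h := stf_ofFn a r K hK
  rw [h0] at h
  simp only [zero_add] at h
  unfold EL
  rw [h]
  constructor
  · rintro ⟨t, ht, he⟩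
    have : t = blocks K r a := List.ofFn_injective he
    rwa [this] at ht
  · intro hb
    exact ⟨_, hb, rfl⟩

theorem meas_blocks (K : ℕ → ℕ) (r : ℕ) (E : Set (Fin r → ℕ)) :
    MeasurableSet {ω : ℕ → ℕ | blocks K r (fun j => ω j + 1) ∈ E} := by
  have h1 : Measurable (fun ω : ℕ → ℕ => blocks K r (fun j => ω j + 1)) := by
    apply measurable_pi_lambda
    intro i
    unfold blocks
    apply Finset.measurable_sum
    intro j _
    exact (measurable_pi_apply j).add_const 1
  exact h1 (Set.to_countable E).measurableSet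

theorem count_cls {Z : Set ℤ} {P : ℕ → Prop} (X : ℕ) (h : ∀ n : ℕ, Odd n → ((n : ℤ) ∈ Z ↔ P n)) :
    oddCount X P = ((cls Z 0 (X + 1) 0 1 0).card : ℝ) := by
  unfold oddCount
  congr 1
  have e : {n : ℕ | n ≤ X ∧ Odd n ∧ P n} = (fun x : ℤ => x.toNat) '' (cls Z 0 (X + 1) 0 1 0 : Set ℤ) := by
    ext n
    rw [Set.mem_image]
    constructor
    · rintro ⟨h1, h2, h3⟩
      refine ⟨(n : ℤ), ?_, by simp⟩
      rw [Finset.mem_coe, mem_cls]
      refine ⟨⟨by positivity, ?_⟩, by exact_mod_cast h2, (h n h2).2 h3, by simp⟩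
      have : (n : ℝ) ≤ X := by exact_mod_cast h1
      push_cast
      linarith
    · rintro ⟨x, hx, rfl⟩
      rw [Finset.mem_coe, mem_cls] at hx
      obtain ⟨⟨h1, h2⟩, h3, h4, _⟩ := hx
      have hx0 : (0 : ℤ) ≤ x := by exact_mod_cast h1
      obtain ⟨n, rfl⟩ := Int.eq_ofNat_of_zero_le hx0
      have hn : Odd n := by exact_mod_cast h3
      refine ⟨?_, by simpa using hn, by simpa using (h n hn).1 h4⟩
      have : ((n : ℤ) : ℝ) < X + 1 := h2
      have h5 : (n : ℝ) < (X : ℝ) + 1 := by exact_mod_cast this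
      have h6 : n < X + 1 := by exact_mod_cast h5
      simp only [Int.toNat_natCast]
      omega
  rw [e, Set.ncard_image_of_injOn, Set.ncard_coe_finset]
  intro x hx y hy hxy
  rw [Finset.mem_coe, mem_cls] at hx hy
  have hx0 : (0 : ℤ) ≤ x := by exact_mod_cast hx.1.1
  have hy0 : (0 : ℤ) ≤ y := by exact_mod_cast hy.1.1
  simp only at hxy
  omega

theorem Tn_eq : (Tn : ℕ → ℕ) = T := rfl

theorem bound_eq (z : ℝ) (n : ℕ) :
    Real.log n / Pool.Agent.H319R2.Lln.mu + z * sg * Real.sqrt (Real.log n) = bound z n := by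
  have hmu := mu_pos'
  have h3 := Real.log_pos (by norm_num : (1 : ℝ) < 3)
  have hL : 0 ≤ Real.log n := Real.log_natCast_nonneg n
  unfold bound
  have e1 : 2 * Real.log n / Real.log (4 / 3) ^ 3
      = Real.log n / (2 * Pool.Agent.H319R2.Lln.mu * Real.sqrt Pool.Agent.H319R2.Lln.mu) ^ 2 := by
    have e2 : (2 * Pool.Agent.H319R2.Lln.mu * Real.sqrt Pool.Agent.H319R2.Lln.mu) ^ 2
        = 4 * Pool.Agent.H319R2.Lln.mu ^ 3 := by
      have := Real.sq_sqrt hmu.le
      calc (2 * Pool.Agent.H319R2.Lln.mu * Real.sqrt Pool.Agent.H319R2.Lln.mu) ^ 2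
          = 4 * Pool.Agent.H319R2.Lln.mu ^ 2 * (Real.sqrt Pool.Agent.H319R2.Lln.mu) ^ 2 := by ring
        _ = 4 * Pool.Agent.H319R2.Lln.mu ^ 3 := by rw [this]; ring
    rw [log43, e2]
    field_simp
    norm_num
    ring
  rw [e1, Real.sqrt_div hL, Real.sqrt_sq (by positivity), log43]
  unfold sg c0
  have := Real.sqrt_pos.2 hmu
  field_simp

theorem adm_of {κ : ℝ} (hκ : 0 < κ) {X r : ℕ} {K : ℕ → ℕ} (hX : 2 ≤ X) (h : Admissible κ X r K) :
    κ ≤ 1 ∧ (∀ i < r, K i ≤ K (i + 1)) ∧
    (∀ b ∈ (List.ofFn fun i : Fin r => K (i + 1) - K i), κ * Real.log X ≤ b) ∧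
    (((List.ofFn fun i : Fin r => K (i + 1) - K i).sum : ℕ) : ℝ) ≤
      (1 - κ) * Real.log X / (2 * Pool.Agent.H319R2.Lln.mu) ∧
    (List.ofFn fun i : Fin r => K (i + 1) - K i).sum = K r := by
  obtain ⟨h0, h1, h2⟩ := h
  have hXR : (1 : ℝ) < X := by exact_mod_cast hX
  have hL : 0 < Real.log X := Real.log_pos hXR
  have hmu := mu_pos'
  rw [log43] at h2
  have hmono : ∀ i < r, K i ≤ K (i + 1) := by
    intro i hi
    have h3 := h1 i hi
    have h4 : 0 < κ * Real.log X := by positivity
    have h5 : (K i : ℝ) ≤ K (i + 1) := by linarith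
    exact_mod_cast h5
  have hs : (List.ofFn fun i : Fin r => K (i + 1) - K i).sum = K r := by
    have := ofFn_sum r K hmono
    omega
  refine ⟨?_, hmono, ?_, by rw [hs]; exact h2, hs⟩
  · by_contra hcon
    push Not at hcon
    have h3 : (1 - κ) * Real.log X / (2 * Pool.Agent.H319R2.Lln.mu) < 0 := by
      apply div_neg_of_neg_of_pos _ (by positivity)
      exact mul_neg_of_neg_of_pos (by linarith) hL
    have h4 : (0 : ℝ) ≤ K r := Nat.cast_nonneg _
    linarith
  · intro b hb
    rw [List.mem_ofFn] at hb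
    obtain ⟨i, rfl⟩ := hb
    have h3 := h1 i i.2
    rw [Nat.cast_sub (hmono i i.2)]
    linarith

/-- THE BLOCK LAW. (1) Every `T`-invariant property `P` has a natural density `δ`, and for
`κ, ε > 0` and all large `X` the number of the odd `n ≤ X` with the property `P` whose vector of sums of
the waiting times in the blocks is in `E` is `δ / 2 * prob K r E * X` up to `ε X`, for all `r`, all
admissible blocks and all sets `E` of vectors. (2) For `P` the property to reach `1` the density is
positive, it is `1` iff the `3x+1` conjecture holds, and this is true jointly with the central limit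
theorem for the total stopping time of the odd number reached after the last block. -/
theorem result :
    (∀ P : ℕ → Prop, (∀ n, 1 ≤ n → (P n ↔ P (T n))) → ∃ δ : ℝ, 0 ≤ δ ∧ δ ≤ 1 ∧ HasDensity P δ ∧
      (0 < δ ↔ ∃ n, 1 ≤ n ∧ P n) ∧
      ∀ κ ε : ℝ, 0 < κ → 0 < ε → ∃ X₀ : ℕ, ∀ X : ℕ, X₀ ≤ X → ∀ (r : ℕ) (K : ℕ → ℕ), Admissible κ X r K →
        ∀ E : Set (Fin r → ℕ),
          |oddCount X (fun n => P n ∧ blocks K r (wait n) ∈ E) - δ / 2 * prob K r E * X| ≤ ε * X) ∧
    ∃ δ : ℝ, 0 < δ ∧ δ ≤ 1 ∧ (δ = 1 ↔ ∀ n : ℕ, 1 ≤ n → ∃ k, T^[k] n = 1) ∧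
      HasDensity (fun n => ∃ k, T^[k] n = 1) δ ∧
      ∀ κ ε z : ℝ, 0 < κ → 0 < ε → ∃ X₀ : ℕ, ∀ X : ℕ, X₀ ≤ X → ∀ (r : ℕ) (K : ℕ → ℕ), Admissible κ X r K →
        ∀ E : Set (Fin r → ℕ),
          |oddCount X (fun n => blocks K r (wait n) ∈ E ∧
              ∃ k : ℕ, (k : ℝ) ≤ bound z (Syr^[K r] n) ∧ T^[k] (Syr^[K r] n) = 1) -
            δ / 2 * Phi z * prob K r E * X| ≤ ε * X := by
  have hprob : ∀ (K : ℕ → ℕ) (r : ℕ) (E : Set (Fin r → ℕ)), K 0 = 0 → (∀ i < r, K i ≤ K (i + 1)) →
      TJ.PP.real {ω : ℕ → ℕ | EL E (stf (List.ofFn fun i : Fin r => K (i + 1) - K i) fun j => ω j + 1)}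
        = prob K r E := by
    intro K r E h0 hK
    unfold prob
    rw [model_eq]
    congr 1
    ext ω
    exact EL_iff h0 hK E _
  have hmeas : ∀ (K : ℕ → ℕ) (r : ℕ) (E : Set (Fin r → ℕ)), K 0 = 0 → (∀ i < r, K i ≤ K (i + 1)) →
      MeasurableSet {ω : ℕ → ℕ |
        EL E (stf (List.ofFn fun i : Fin r => K (i + 1) - K i) fun j => ω j + 1)} := by
    intro K r E h0 hK
    have e : {ω : ℕ → ℕ | EL E (stf (List.ofFn fun i : Fin r => K (i + 1) - K i) fun j => ω j + 1)} =
        {ω : ℕ → ℕ | blocks K r (fun j => ω j + 1) ∈ E} := by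
      ext ω
      exact EL_iff h0 hK E _
    rw [e]
    exact meas_blocks K r E
  constructor
  · intro P hP
    obtain ⟨δ, h0, h1, h2, h3, _⟩ := nat_density (P := P) hP
    refine ⟨δ, h0, h1, h2, h3, ?_⟩
    intro κ ε hκ hε
    have hSi : Inv 1 (NS P) := NS_inv hP
    have hG : Tendsto (fun X : ℝ => G (NS P) X / X) atTop (𝓝 δ) := by
      obtain ⟨l, _, _, hl⟩ := dens_side odd_one isCoprime_one_left (Or.inl rfl) hSi
      have h4 : Tendsto (fun N : ℕ => ({n : ℕ | 1 ≤ n ∧ n ≤ N ∧ P n}.ncard : ℝ) / N) atTop (𝓝 l) := by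
        refine (HD_ncard (Or.inl rfl) hl).congr fun N => ?_
        rw [NS_ncard]
      have h5 : l = δ := tendsto_nhds_unique h4 h2
      rw [h5] at hl
      unfold HD at hl
      simpa only [one_mul, Set.ofPred_mem_eq] using hl
    rcases le_or_gt κ 1 with hκ1 | hκ1
    · obtain ⟨N0, hN0⟩ := inv_law hSi h0 h1 hG hκ hκ1 hε
      refine ⟨max N0 2, fun X hX r K hA E => ?_⟩
      obtain ⟨_, a2, a3, a4, a5⟩ := adm_of hκ ((le_max_right _ _).trans hX) hA
      have h := hN0 X ((le_max_left _ _).trans hX) (List.ofFn fun i : Fin r => K (i + 1) - K i) a3 a4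
        (EL E) (hmeas K r E hA.1 a2)
      rw [hprob K r E hA.1 a2] at h
      rw [count_cls (Z := ZE 1 (NS P) (List.ofFn fun i : Fin r => K (i + 1) - K i) (EL E))]
      · exact h
      · intro n hn
        have hn' : Odd (n : ℤ) := by exact_mod_cast hn
        unfold ZE
        rw [Set.mem_setOf_eq, ZE_inv odd_one isCoprime_one_left hSi hn', wait_cast, EL_iff hA.1 a2]
        have : 1 ≤ n := hn.pos
        constructor
        · rintro ⟨⟨_, b⟩, c⟩
          exact ⟨by simpa using b, c⟩
        · rintro ⟨b, c⟩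
          exact ⟨⟨by omega, by simpa using b⟩, c⟩
    · refine ⟨2, fun X hX r K hA E => ?_⟩
      exact absurd (adm_of hκ hX hA).1 (not_le.2 hκ1)
  · obtain ⟨δ, h0, h1, h2, h3⟩ := Bas_density
    refine ⟨δ, h0, h1, h2, h3, ?_⟩
    intro κ ε z hκ hε
    have hC : Dn (Cn 1) δ := dn_iff (fun n _ => (Cn_one_bas n).symm) h3
    rcases le_or_gt κ 1 with hκ1 | hκ1
    · obtain ⟨N0, hN0⟩ := hit_law hC h1 z hκ hκ1 hε
      refine ⟨max N0 2, fun X hX r K hA E => ?_⟩
      obtain ⟨_, a2, a3, a4, a5⟩ := adm_of hκ ((le_max_right _ _).trans hX) hA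
      have h := hN0 X ((le_max_left _ _).trans hX) (List.ofFn fun i : Fin r => K (i + 1) - K i) a3 a4
        (EL E) (hmeas K r E hA.1 a2)
      rw [hprob K r E hA.1 a2] at h
      unfold Phi
      rw [← phi_cdf]
      rw [count_cls (Z := ZE 1 (Rone z) (List.ofFn fun i : Fin r => K (i + 1) - K i) (EL E))]
      · exact h
      · intro n hn
        unfold ZE
        rw [Set.mem_setOf_eq, wait_cast, EL_iff hA.1 a2, a5, iter_cast]
        have hpos : 0 < Syr^[K r] n := by
          have h6 := (iter_mem odd_one isCoprime_one_left (S := Set.univ) (fun _ _ _ _ _ _ _ _ => trivial)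
            (M := (n : ℤ)) (by exact_mod_cast hn) trivial (K r)).1
          rw [iter_cast] at h6
          rcases Nat.eq_zero_or_pos (Syr^[K r] n) with h7 | h7
          · rw [h7] at h6
            exact absurd h6 (by decide)
          · exact h7
        unfold Rone
        rw [Set.mem_setOf_eq, Int.toNat_natCast, and_comm]
        simp only [bound_eq]
        constructor
        · rintro ⟨b, _, c⟩
          exact ⟨b, c⟩
        · rintro ⟨b, c⟩
          exact ⟨b, by exact_mod_cast hpos, c⟩
    · refine ⟨2, fun X hX r K hA E => ?_⟩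
      exact absurd (adm_of hκ hX hA).1 (not_le.2 hκ1)

end Pool.Agent.Results.MP_f7abf1_nt.BlockLaw
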