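import Pool.Agent.TH930.HW.Nat

set_option autoImplicit false

/-! The rate function of the repeated random walk model, for times beyond `log_2 x`. -/

namespace Pool.Agent.Results.MP_f7abf1_nt.ModelRates

open Finset Pool.Agent.TH930.HW Pool.Agent.TH930.EBQ

/-- the `3x+1` function -/
def T (n : ℕ) : ℕ := if n % 2 = 0 then n / 2 else (3 * n + 1) / 2

/-- the Legendre transform of `log (½ (2^θ + (2/3)^θ))` -/
noncomputable def g (a : ℝ) : ℝ :=
  ⨆ θ : ℝ, (θ * a - Real.log ((1 / 2) * ((2 : ℝ) ^ θ + (2 / 3 : ℝ) ^ θ)))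

lemma T_eq : T = Sn := rfl

/-- `g` is at most the relative entropy -/
lemma g_le {p : ℝ} (hp0 : 0 < p) (hp1 : p < 1) :
    g (Real.log 2 - p * Real.log 3) ≤ Real.log 2 - Real.binEntropy p := by
  unfold g
  apply ciSup_le
  intro θ
  have hq : 0 < 1 - p := by linarith
  have hA : (0 : ℝ) < (1 / 2) * 2 ^ θ / (1 - p) := by positivity
  have hB : (0 : ℝ) < (1 / 2) * (2 / 3 : ℝ) ^ θ / p := by positivity
  have h1 := Real.geom_mean_le_arith_mean2_weighted hq.le hp0.le hA.le hB.le (by ring)
  have h2 : (1 - p) * ((1 / 2) * 2 ^ θ / (1 - p)) + p * ((1 / 2) * (2 / 3 : ℝ) ^ θ / p) =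
      (1 / 2) * ((2 : ℝ) ^ θ + (2 / 3 : ℝ) ^ θ) := by
    field_simp
  rw [h2] at h1
  have h3 := Real.log_le_log (by positivity) h1
  rw [Real.log_mul (by positivity) (by positivity), Real.log_rpow hA, Real.log_rpow hB,
    Real.log_div (by positivity) (by positivity), Real.log_div (by positivity) (by positivity),
    Real.log_mul (by norm_num) (by positivity), Real.log_mul (by norm_num) (by positivity),
    Real.log_rpow (by norm_num), Real.log_rpow (by norm_num)] at h3
  have h4 : Real.log (1 / 2) = -Real.log 2 := by rw [one_div, Real.log_inv]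
  have h5 : Real.log (2 / 3) = Real.log 2 - Real.log 3 := Real.log_div (by norm_num) (by norm_num)
  rw [h4, h5] at h3
  unfold Real.binEntropy
  rw [Real.log_inv, Real.log_inv]
  nlinarith

/-- RATES OF THE MODEL BEYOND `log_2 x`.  Let `g` be the rate function of the repeated random walk model,
`0 < δ ≤ 1/4` and `0 < τ ≤ 10^(-6) δ`.  There is `C` such that for all `x ≥ 1` and all times
`k ≤ (1+τ) log_2 x`:

(1) for `-log (3/2) + δ ≤ a ≤ ½ log (4/3)` and every `u ≥ x` at most
`C x^(1 + exp(-δ/(4000 τ))) e^(-k g(a))` of the `n` in `(u, u+x]` have `T^k(n) ≥ n e^(-ak)`;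

(2) for `½ log (4/3) ≤ a ≤ log 2 - δ` and every `u ≥ 0` at most `C x^(1 + exp(-δ/(4000 τ))) e^(-k g(a))` of
the `n` in `(u, u+x]` have `T^k(n) ≤ n e^(-ak)`. -/
theorem result : ∀ δ τ : ℝ, 0 < δ → δ ≤ 1 / 4 → 0 < τ → τ ≤ δ / 1000000 → ∃ C : ℝ, 0 < C ∧
    ∀ x : ℝ, 1 ≤ x → ∀ k : ℕ, (k : ℝ) ≤ (1 + τ) * Real.logb 2 x →
    (∀ a : ℝ, -Real.log (3 / 2) + δ ≤ a → a ≤ 1 / 2 * Real.log (4 / 3) → ∀ u : ℕ, x ≤ u →
      ({n : ℕ | u < n ∧ (n : ℝ) ≤ u + x ∧ (n : ℝ) * Real.exp (-(a * k)) ≤ (T^[k] n : ℕ)}.ncard : ℝ) ≤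
        C * x ^ (1 + Real.exp (-(δ / (4000 * τ)))) * Real.exp (-(k * g a))) ∧
    (∀ a : ℝ, 1 / 2 * Real.log (4 / 3) ≤ a → a ≤ Real.log 2 - δ → ∀ u : ℕ,
      ({n : ℕ | u < n ∧ (n : ℝ) ≤ u + x ∧ (T^[k] n : ℕ) ≤ (n : ℝ) * Real.exp (-(a * k))}.ncard : ℝ) ≤
        C * x ^ (1 + Real.exp (-(δ / (4000 * τ)))) * Real.exp (-(k * g a))) := by
  classical
  intro δ τ hδ0 hδ1 hτ0 hτ1
  rw [T_eq]
  set δ' : ℝ := 9 / 10 * δ with hδ'
  obtain ⟨C, hC, h⟩ := chern (δ := δ') (τ := τ) (by positivity) (by linarith) hτ0 (by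
    rw [hδ']; linarith)
  set E : ℝ := Real.exp (-(δ / (4000 * τ))) with hE
  have hE0 : 0 < E := Real.exp_pos _
  have hE1 : E ≤ 1 := by
    rw [hE, Real.exp_le_one_iff]
    have : 0 < δ / (4000 * τ) := by positivity
    linarith
  have hEE : Real.exp (-(δ' / (3000 * τ))) ≤ E := by
    rw [hE]
    apply Real.exp_le_exp.2
    have : δ / (4000 * τ) ≤ δ' / (3000 * τ) := by
      rw [hδ', div_le_div_iff₀ (by positivity) (by positivity)]
      have : 0 < δ * τ := by positivity
      nlinarith
    linarith
  have hl2 := Real.log_two_lt_d9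
  have hl2' := Real.log_two_gt_d9
  have hl0 : 0 < Real.log 2 := log2_pos
  have hl3 : 0 < Real.log 3 := log3_pos
  have hl3a : Real.log 3 ≤ (159 / 100) * Real.log 2 := by
    have h6 : Real.log ((3 : ℝ) ^ 100) ≤ Real.log ((2 : ℝ) ^ 159) :=
      Real.log_le_log (by norm_num) (by norm_num)
    rw [Real.log_pow, Real.log_pow] at h6
    push_cast at h6
    linarith
  have hl3b : Real.log 3 ≤ 10 / 9 := by linarith
  have hl3c : 1 ≤ Real.log 3 := by
    have h6 : Real.log ((2 : ℝ) ^ 3) ≤ Real.log ((3 : ℝ) ^ 2) :=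
      Real.log_le_log (by norm_num) (by norm_num)
    rw [Real.log_pow, Real.log_pow] at h6
    push_cast at h6
    linarith
  have e32 : Real.log (3 / 2) = Real.log 3 - Real.log 2 := Real.log_div (by norm_num) (by norm_num)
  have e43 : Real.log (4 / 3) = 2 * Real.log 2 - Real.log 3 := by
    rw [Real.log_div (by norm_num) (by norm_num), show (4 : ℝ) = 2 ^ 2 by norm_num, Real.log_pow]
    push_cast; ring
  rw [e32, e43]
  set D : ℝ := 33 * 64 + 8 * C with hD
  have hDC : 8 * C ≤ D := by
    rw [hD]
    linarith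
  have hD1 : 33 * 64 ≤ D := by
    rw [hD]
    linarith
  set D2 : ℝ := D + 8 * C * Real.exp (Real.log 2 * (2 / δ)) with hD2
  have hD2a : D ≤ D2 := by
    rw [hD2]
    have : 0 < 8 * C * Real.exp (Real.log 2 * (2 / δ)) := by positivity
    linarith
  have hD0 : 0 < D2 := by linarith
  refine ⟨D2, hD0, ?_⟩
  intro x hx k hk
  have hx0 : 0 < x := by linarith
  have hlx : 0 ≤ Real.log x := Real.log_nonneg hx
  have hlb : Real.logb 2 x * Real.log 2 = Real.log x := by unfold Real.logb; field_simp
  have hlb0 : 0 ≤ Real.logb 2 x := Real.logb_nonneg (by norm_num) hx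
  have hkn : (0 : ℝ) ≤ k := Nat.cast_nonneg k
  obtain ⟨W, hW1, hW2, hW3⟩ := exists_W hx
  have hWn : (0 : ℝ) ≤ W := Nat.cast_nonneg W
  have hkW : (k : ℝ) ≤ (1 + τ) * W := hk.trans (mul_le_mul_of_nonneg_left hW3 (by linarith))
  have hk1W : |((1 : ℤ) : ℝ)| ≤ Real.exp (τ / 4 * W) := by
    rw [Int.cast_one, abs_one]; exact Real.one_le_exp (by positivity)
  -- the final bound
  have hfinal : ∀ p : ℝ, 0 < p → p < 1 → ∀ s : ℝ, Real.exp s ≤ 1 + Real.exp (Real.log 2 * (2 / δ)) →
      C * Real.exp s * Real.exp (W * Real.log 2 - k * (Real.log 2 - Real.binEntropy p) +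
        Real.exp (-(δ' / (3000 * τ))) / 50 * W) ≤
      D2 * x ^ (1 + E) * Real.exp (-(k * g (Real.log 2 - p * Real.log 3))) := by
    intro p hp0 hp1 s hs
    have h1 : Real.exp (W * Real.log 2 - k * (Real.log 2 - Real.binEntropy p) +
        Real.exp (-(δ' / (3000 * τ))) / 50 * W) ≤
        8 * x ^ (1 + E) * Real.exp (-(k * g (Real.log 2 - p * Real.log 3))) := by
      have h3 : (8 : ℝ) = Real.exp (3 * Real.log 2) := by
        have := pow2_exp 3
        norm_num at this
        rw [← this]
      rw [h3, Real.rpow_def_of_pos hx0, ← Real.exp_add, ← Real.exp_add]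
      apply Real.exp_le_exp.2
      have h4 : (k : ℝ) * g (Real.log 2 - p * Real.log 3) ≤ k * (Real.log 2 - Real.binEntropy p) :=
        mul_le_mul_of_nonneg_left (g_le hp0 hp1) hkn
      have h6 : Real.exp (-(δ' / (3000 * τ))) / 50 * W ≤ E / 50 * (2 * Real.log x + 2) := by
        have h7 : (W : ℝ) ≤ 2 * Real.log x + 2 := by
          have : (W : ℝ) * (1 / 2) ≤ W * Real.log 2 := mul_le_mul_of_nonneg_left (by linarith) hWn
          nlinarith
        apply mul_le_mul (by linarith) h7 hWn (by positivity)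
      have h8 : E / 50 * (2 * Real.log x + 2) ≤ E * Real.log x + 1 / 25 := by
        have : 0 ≤ E * Real.log x := by positivity
        nlinarith
      nlinarith
    have h2 : 0 ≤ x ^ (1 + E) * Real.exp (-(k * g (Real.log 2 - p * Real.log 3))) := by positivity
    calc C * Real.exp s * _ ≤ C * (1 + Real.exp (Real.log 2 * (2 / δ))) *
          (8 * x ^ (1 + E) * Real.exp (-(k * g (Real.log 2 - p * Real.log 3)))) := by
          apply mul_le_mul _ h1 (Real.exp_pos _).le (by positivity)
          exact mul_le_mul_of_nonneg_left hs hC.le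
      _ = (8 * C + 8 * C * Real.exp (Real.log 2 * (2 / δ))) *
          (x ^ (1 + E) * Real.exp (-(k * g (Real.log 2 - p * Real.log 3)))) := by ring
      _ ≤ D2 * (x ^ (1 + E) * Real.exp (-(k * g (Real.log 2 - p * Real.log 3)))) := by
          apply mul_le_mul_of_nonneg_right _ h2
          rw [hD2]; linarith
      _ = _ := by ring
  -- finiteness
  have hfin : ∀ (u : ℕ) (P : ℕ → Prop), {n : ℕ | u < n ∧ (n : ℝ) ≤ u + x ∧ P n}.Finite := by
    intro u P
    apply (Set.finite_Iic (u + ⌊x⌋₊)).subset
    rintro n ⟨-, h2, -⟩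
    rw [Set.mem_Iic]
    by_contra hcon
    rw [not_le] at hcon
    have h4 : ((n - u : ℕ) : ℝ) ≤ x := by
      rw [Nat.cast_sub (by omega)]; linarith
    have h5 := Nat.le_floor h4
    omega
  have htriv : ∀ (u : ℕ) (P : ℕ → Prop), ({n : ℕ | u < n ∧ (n : ℝ) ≤ u + x ∧ P n}.ncard : ℝ) ≤ x := by
    intro u P
    have h1 : {n : ℕ | u < n ∧ (n : ℝ) ≤ u + x ∧ P n} ⊆ ((Finset.Ioc u (u + ⌊x⌋₊) : Finset ℕ) : Set ℕ) := by
      rintro n ⟨h1, h2, -⟩
      rw [Finset.mem_coe, mem_Ioc]
      refine ⟨h1, ?_⟩
      have h4 : ((n - u : ℕ) : ℝ) ≤ x := by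
        rw [Nat.cast_sub (by omega)]; linarith
      have h5 := Nat.le_floor h4
      omega
    have h2 := Set.ncard_le_ncard h1 (Finset.finite_toSet _)
    rw [Set.ncard_coe_finset, Nat.card_Ioc, Nat.add_sub_cancel_left] at h2
    have h3 : ({n : ℕ | u < n ∧ (n : ℝ) ≤ u + x ∧ P n}.ncard : ℝ) ≤ ⌊x⌋₊ := by exact_mod_cast h2
    exact h3.trans (Nat.floor_le hx0.le)
  constructor
  · intro a ha1 ha2 u hu
    set p : ℝ := (Real.log 2 - a) / Real.log 3 with hp
    have hpa : a = Real.log 2 - p * Real.log 3 := by rw [hp, div_mul_cancel₀ _ hl3.ne']; ring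
    have hp1 : p ≤ 1 - δ' := by
      rw [hp, div_le_iff₀ hl3, hδ']
      have : 9 / 10 * δ * Real.log 3 ≤ δ := by nlinarith
      nlinarith
    have hp2 : 1 / 2 ≤ p := by
      rw [hp, le_div_iff₀ hl3]; linarith
    have hδ'0 : 0 < δ' := by positivity
    have hp0 : 0 < p := by linarith
    have hp3 : p < 1 := by linarith
    rcases lt_or_ge x 32 with hxs | hxb
    · have h1 := htriv u (fun n => (n : ℝ) * Real.exp (-(a * k)) ≤ (Sn^[k] n : ℕ))
      have h2 : (k : ℝ) ≤ 6 := by
        have h3 : Real.logb 2 x ≤ 5 := by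
          rw [Real.logb_le_iff_le_rpow (by norm_num) hx0]
          norm_num
          linarith
        nlinarith
      have h3 : g a ≤ Real.log 2 := by
        rw [hpa]
        refine (g_le hp0 hp3).trans ?_
        have := Real.binEntropy_pos hp0 hp3
        linarith
      have h4 : (1 : ℝ) / 64 ≤ Real.exp (-(k * g a)) := by
        have h5 : (64 : ℝ) = Real.exp (6 * Real.log 2) := by
          have := pow2_exp 6
          norm_num at this
          rw [← this]
        rw [one_div, h5, ← Real.exp_neg]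
        apply Real.exp_le_exp.2
        have h6 : (k : ℝ) * g a ≤ k * Real.log 2 := mul_le_mul_of_nonneg_left h3 hkn
        nlinarith
      have h5 : (1 : ℝ) ≤ x ^ (1 + E) := Real.one_le_rpow hx (by linarith)
      calc _ ≤ x := h1
        _ ≤ (33 * 64) * 1 * (1 / 64) := by linarith
        _ ≤ D2 * x ^ (1 + E) * Real.exp (-(k * g a)) := by
            apply mul_le_mul _ h4 (by norm_num) (by positivity)
            exact mul_le_mul (by linarith) h5 zero_le_one (by linarith)
    · have hf := hfin u (fun n => (n : ℝ) * Real.exp (-(a * k)) ≤ (Sn^[k] n : ℕ))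
      rw [Set.ncard_eq_toFinset_card _ hf]
      have hlam0 : 0 ≤ Real.log p - Real.log (1 - p) := by
        have := Real.log_le_log (by linarith : 0 < 1 - p) (by linarith : 1 - p ≤ p)
        linarith
      have hlam1 : Real.log p - Real.log (1 - p) ≤ 2 / δ := by
        have h1 : Real.log p ≤ 0 := Real.log_nonpos hp0.le hp3.le
        have h2 : Real.log (1 / (1 - p)) ≤ 1 / (1 - p) - 1 := Real.log_le_sub_one_of_pos (by
          have : 0 < 1 - p := by linarith
          positivity)
        rw [one_div, Real.log_inv] at h2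
        have h3 : (1 - p)⁻¹ ≤ 2 / δ := by
          rw [inv_le_comm₀ (by linarith) (by positivity), inv_div]
          rw [hδ'] at hp1; linarith
        linarith
      set s : ℝ := Real.log (2 * 1) / Real.log 3 * (Real.log p - Real.log (1 - p)) with hs
      have h1 := h 1 odd_one W hk1W k hkW p (by linarith) hp1 s (u : ℤ)
        (hf.toFinset.image (fun n : ℕ => (n : ℤ))) (by
        intro y hy
        rw [mem_image] at hy
        obtain ⟨n, hn, rfl⟩ := hy
        rw [Set.Finite.mem_toFinset] at hn
        obtain ⟨hn1, hn2, hn3⟩ := hn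
        have hn0 : 0 < n := by omega
        have hnR : (0 : ℝ) < n := by exact_mod_cast hn0
        have hnx : x ≤ n := by
          have : (u : ℝ) < n := by exact_mod_cast hn1
          linarith
        refine ⟨?_, ?_⟩
        · rw [abs_of_nonneg (by have : (u : ℤ) < n := by exact_mod_cast hn1
                                linarith)]
          have h2 : ((n : ℝ) - u) ≤ 2 ^ W := by linarith
          have h3 : (((n : ℤ) - u : ℤ) : ℝ) ≤ ((2 ^ W : ℤ) : ℝ) := by push_cast; exact h2
          exact_mod_cast h3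
        · have hexp : Real.exp (p * k * Real.log 3) = 2 ^ k * Real.exp (-(a * k)) := by
            rw [pow2_exp, ← Real.exp_add]; congr 1
            rw [hpa]; ring
          have hadd : 2 * (3 : ℝ) ^ k ≤ 2 ^ k * (Sn^[k] n : ℕ) := by
            have h4 : 2 * (3 : ℝ) ^ k ≤ 2 ^ k * (x * Real.exp (-(a * k))) := by
              have e1 : (3 : ℝ) ^ k = Real.exp (k * Real.log 3) := by
                rw [Real.exp_nat_mul, Real.exp_log (by norm_num)]
              have e2 : x = Real.exp (Real.log x) := (Real.exp_log hx0).symm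
              have e3 : (2 : ℝ) = Real.exp (Real.log 2) := (Real.exp_log (by norm_num)).symm
              have h5 : (k : ℝ) * (1 / 2 * Real.log 3) + Real.log 2 ≤ Real.log x := by
                have h6 : (k : ℝ) * (1 / 2 * Real.log 3) ≤ k * (1 / 2 * ((159 / 100) * Real.log 2)) :=
                  mul_le_mul_of_nonneg_left (by linarith) hkn
                have h7 : (k : ℝ) * Real.log 2 ≤ (1 + τ) * Real.log x := by
                  rw [← hlb]
                  have := mul_le_mul_of_nonneg_right hk hl0.le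
                  linarith
                have h8 : τ * Real.log x ≤ 1 / 1000 * Real.log x :=
                  mul_le_mul_of_nonneg_right (by linarith) hlx
                have h9 : 5 * Real.log 2 ≤ Real.log x := by
                  have h10 : Real.log ((2 : ℝ) ^ 5) ≤ Real.log x :=
                    Real.log_le_log (by norm_num) (by norm_num; exact hxb)
                  rw [Real.log_pow] at h10
                  push_cast at h10
                  linarith
                linarith
              have h6 : (k : ℝ) * a ≤ k * (Real.log 2 - 1 / 2 * Real.log 3) :=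
                mul_le_mul_of_nonneg_left (by linarith) hkn
              calc 2 * (3 : ℝ) ^ k = Real.exp (Real.log 2) * Real.exp (k * Real.log 3) := by
                    rw [← e3, e1]
                _ = Real.exp (Real.log 2 + k * Real.log 3) := by rw [← Real.exp_add]
                _ ≤ Real.exp (k * Real.log 2 + (Real.log x + -(a * k))) := by
                    apply Real.exp_le_exp.2
                    nlinarith
                _ = 2 ^ k * (x * Real.exp (-(a * k))) := by
                    rw [Real.exp_add, Real.exp_add, ← pow2_exp, ← e2]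
            refine h4.trans (mul_le_mul_of_nonneg_left ?_ (by positivity))
            exact (mul_le_mul_of_nonneg_right hnx (Real.exp_pos _).le).trans hn3
          have h2 := ones_ge (K := k) (n := n) (p := p) (D := 1) one_pos hn0 hadd (by
            rw [hexp, one_mul]
            calc (2 : ℝ) ^ k * Real.exp (-(a * k)) * n = 2 ^ k * (n * Real.exp (-(a * k))) := by ring
              _ ≤ _ := mul_le_mul_of_nonneg_left hn3 (by positivity))
          have h3 : -(Real.log (2 * 1) / Real.log 3) ≤ (ones (wd 1 k n) : ℝ) - p * k := by linarith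
          have h4 := mul_le_mul_of_nonneg_right h3 hlam0
          rw [hs]
          linarith)
      rw [card_image_of_injective _ Nat.cast_injective] at h1
      refine h1.trans ?_
      have h2 := hfinal p hp0 hp3 s (by
        have h3 : s ≤ Real.log 2 * (2 / δ) := by
          rw [hs, mul_one]
          have h4 : Real.log 2 / Real.log 3 ≤ Real.log 2 := div_le_self hl0.le hl3c
          exact mul_le_mul h4 hlam1 hlam0 hl0.le
        have := Real.exp_le_exp.2 h3
        linarith)
      rw [← hpa] at h2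
      exact h2
  · intro a ha1 ha2 u
    set p : ℝ := (Real.log 2 - a) / Real.log 3 with hp
    have hpa : a = Real.log 2 - p * Real.log 3 := by rw [hp, div_mul_cancel₀ _ hl3.ne']; ring
    have hp1 : δ' ≤ p := by
      rw [hp, le_div_iff₀ hl3, hδ']
      nlinarith
    have hp2 : p ≤ 1 / 2 := by
      rw [hp, div_le_iff₀ hl3]; linarith
    have hδ'0 : 0 < δ' := by positivity
    have hp0 : 0 < p := by linarith
    have hp3 : p < 1 := by linarith
    have hf := hfin u (fun n => (Sn^[k] n : ℕ) ≤ (n : ℝ) * Real.exp (-(a * k)))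
    rw [Set.ncard_eq_toFinset_card _ hf]
    have hlam0 : Real.log p - Real.log (1 - p) ≤ 0 := by
      have := Real.log_le_log (by linarith : 0 < p) (by linarith : p ≤ 1 - p)
      linarith
    have h1 := h 1 odd_one W hk1W k hkW p hp1 (by linarith) 0 (u : ℤ)
      (hf.toFinset.image (fun n : ℕ => (n : ℤ))) (by
      intro y hy
      rw [mem_image] at hy
      obtain ⟨n, hn, rfl⟩ := hy
      rw [Set.Finite.mem_toFinset] at hn
      obtain ⟨hn1, hn2, hn3⟩ := hn
      have hn0 : 0 < n := by omega
      refine ⟨?_, ?_⟩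
      · rw [abs_of_nonneg (by have : (u : ℤ) < n := by exact_mod_cast hn1
                              linarith)]
        have h2 : ((n : ℝ) - u) ≤ 2 ^ W := by linarith
        have h3 : (((n : ℤ) - u : ℤ) : ℝ) ≤ ((2 ^ W : ℤ) : ℝ) := by push_cast; exact h2
        exact_mod_cast h3
      · have hexp : Real.exp (p * k * Real.log 3) = 2 ^ k * Real.exp (-(a * k)) := by
          rw [pow2_exp, ← Real.exp_add]; congr 1
          rw [hpa]; ring
        have h2 := ones_le' (K := k) (n := n) (p := p) hn0 (by
          rw [hexp]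
          calc (2 : ℝ) ^ k * (Sn^[k] n : ℕ) ≤ 2 ^ k * (n * Real.exp (-(a * k))) :=
                mul_le_mul_of_nonneg_left hn3 (by positivity)
            _ = _ := by ring)
        have h3 : (ones (wd 1 k n) : ℝ) - p * k ≤ 0 := by linarith
        have h4 := mul_nonneg_of_nonpos_of_nonpos h3 hlam0
        linarith)
    rw [card_image_of_injective _ Nat.cast_injective] at h1
    refine h1.trans ?_
    have h2 := hfinal p hp0 hp3 0 (by
      rw [Real.exp_zero]
      have := Real.exp_pos (Real.log 2 * (2 / δ))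
      linarith)
    rw [← hpa] at h2
    exact h2

end Pool.Agent.Results.MP_f7abf1_nt.ModelRates
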