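import Mathlib
import Pool.Agent.TH465.OM.C

set_option autoImplicit false

/-! The limit law of the scaled total stopping times of the `3x+1` function, jointly with the parity
of the number of prime factors, the Möbius function and every bounded sequence which has a mean in
almost all short intervals. -/

namespace Pool.Agent.Results.MP_f7abf1_nt.ParityOfPrimeFactors

open Filter Topology

/-- the `3x+1` function -/
def T (n : ℕ) : ℕ := if n % 2 = 0 then n / 2 else (3 * n + 1) / 2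

/-- `t` is the total stopping time of `n` -/
def IsTotalStoppingTime (n t : ℕ) : Prop := T^[t] n = 1 ∧ ∀ j < t, T^[j] n ≠ 1

/-- the number of odd terms among `n, T n, ..., T^(k-1) n` -/
def odds (k n : ℕ) : ℕ := ((Finset.range k).filter fun i => T^[i] n % 2 = 1).card

/-- the positive integers with the property `P` have the natural density `δ` -/
def HasDensity (P : ℕ → Prop) (δ : ℝ) : Prop :=
  Tendsto (fun N : ℕ => ({n : ℕ | 1 ≤ n ∧ n ≤ N ∧ P n}.ncard : ℝ) / N) atTop (𝓝 δ)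

open scoped Classical in
/-- `1/N` times the sum of the `f n` over the `n ≤ N` with the property `P` tends to `l` -/
def HasMeanOn (P : ℕ → Prop) (f : ℕ → ℝ) (l : ℝ) : Prop :=
  Tendsto (fun N : ℕ => (∑ n ∈ (Finset.Icc 1 N).filter P, f n) / N) atTop (𝓝 l)

/-- `g` is bounded and has the mean `α` in almost all short intervals: for every `ε > 0` there is a
length `H` such that the sum of `g` over `[n, n + H)` is within `ε * H` of `α * H` except for at most
`ε * N` of the `n ≤ N`, for all large `N` -/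
def HasShortMean (g : ℕ → ℝ) (α : ℝ) : Prop := (∃ B : ℝ, ∀ n, |g n| ≤ B) ∧
  ∀ ε : ℝ, 0 < ε → ∃ H : ℕ, 1 ≤ H ∧ ∀ᶠ N : ℕ in atTop,
    ({n : ℕ | 1 ≤ n ∧ n ≤ N ∧ ε * H < |(∑ j ∈ Finset.range H, g (n + j)) - α * H|}.ncard : ℝ) ≤ ε * N

/-- `(½ log (4/3))⁻¹ + x * log 3 * √(2 / ((log (4/3))^3 log n))` -/
noncomputable def bound (x : ℝ) (n : ℕ) : ℝ :=
  (1 / 2 * Real.log (4 / 3))⁻¹ + x * (Real.log 3 * Real.sqrt (2 / (Real.log (4 / 3) ^ 3 * Real.log n)))

/-- The distribution function of the standard normal law. -/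
noncomputable def Phi (x : ℝ) : ℝ :=
  ProbabilityTheory.cdf (ProbabilityTheory.gaussianReal 0 1) x

/-- `n` has a finite total stopping time `t`, the scaled total stopping time `t / log n` is at most
`bound x n`, `t ≡ a` modulo `m` and the number of odd terms before reaching `1` is `≡ b` modulo `m` -/
def Level (m : ℕ) (a b : ℤ) (x : ℝ) (n : ℕ) : Prop :=
  ∃ t : ℕ, (t : ℝ) / Real.log n ≤ bound x n ∧ IsTotalStoppingTime n t ∧
    (t : ℤ) ≡ a [ZMOD m] ∧ (odds t n : ℤ) ≡ b [ZMOD m]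

/-- The basic properties of `n` and their densities: `Level m a b x` and `δ * Phi x / m ^ 2`; infinite
total stopping time and `1 - δ`. -/
def Basic (δ : ℝ) (P : ℕ → Prop) (c : ℝ) : Prop :=
  (∃ (m : ℕ) (a b : ℤ) (x : ℝ), 1 ≤ m ∧ P = Level m a b x ∧ c = δ * Phi x / m ^ 2) ∨
    (P = (fun n => ∀ k, T^[k] n ≠ 1) ∧ c = 1 - δ)

theorem bound_iff (x : ℝ) {n : ℕ} (hn : 1 < n) (t : ℕ) :
    (t : ℝ) / Real.log n ≤ bound x n ↔ (t : ℝ) ≤ 2 / Real.log (4 / 3) * Real.log n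
      + x * (Real.log 3 * Real.sqrt (2 * Real.log n / Real.log (4 / 3) ^ 3)) := by
  have hL : 0 < Real.log n := Real.log_pos (by exact_mod_cast hn)
  have hnu : 0 < Real.log (4 / 3) := Real.log_pos (by norm_num)
  rw [div_le_iff₀ hL]
  have e : bound x n * Real.log n = 2 / Real.log (4 / 3) * Real.log n
      + x * (Real.log 3 * Real.sqrt (2 * Real.log n / Real.log (4 / 3) ^ 3)) := by
    unfold bound
    have h1 : Real.sqrt (2 * Real.log n / Real.log (4 / 3) ^ 3)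
        = Real.sqrt (2 / (Real.log (4 / 3) ^ 3 * Real.log n)) * Real.log n := by
      have h2 : 2 * Real.log n / Real.log (4 / 3) ^ 3
          = 2 / (Real.log (4 / 3) ^ 3 * Real.log n) * Real.log n ^ 2 := by field_simp
      rw [h2, Real.sqrt_mul (by positivity), Real.sqrt_sq hL.le]
    rw [h1, add_mul]
    congr 1
    · field_simp
    · ring
  rw [e]

theorem level_iff (m : ℕ) (a b : ℤ) (x : ℝ) {n : ℕ} (hn : 1 ≤ n) :
    Pool.Agent.H499R2.HL.Pev m a b x n ↔ Level m a b x n := by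
  rcases Nat.lt_or_ge 1 n with h | h
  · refine exists_congr fun t => ?_
    rw [bound_iff x h t]
    exact Iff.rfl
  · have hn1 : n = 1 := by omega
    subst hn1
    refine exists_congr fun t => ?_
    have hnu : 0 < Real.log (4 / 3) := Real.log_pos (by norm_num)
    constructor
    · rintro ⟨_, h2, h3⟩
      have ht : t = 0 := by
        by_contra h0
        exact h2.2 0 (Nat.pos_of_ne_zero h0) rfl
      refine ⟨?_, h2, h3⟩
      subst ht
      unfold bound
      simp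
      positivity
    · rintro ⟨_, h2, h3⟩
      have ht : t = 0 := by
        by_contra h0
        exact h2.2 0 (Nat.pos_of_ne_zero h0) rfl
      refine ⟨?_, h2, h3⟩
      subst ht
      unfold Pool.Agent.H499R2.HL.bk
      simp

theorem mn_on {P Q : ℕ → Prop} {f : ℕ → ℝ} {l : ℝ} (h : Pool.Agent.TH465.OM.Mn
    (fun n => f n * Pool.Agent.TH465.OM.ind P n) l) (hPQ : ∀ n, 1 ≤ n → (P n ↔ Q n)) : HasMeanOn Q f l := by
  classical
  unfold Pool.Agent.TH465.OM.Mn at h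
  unfold HasMeanOn
  refine h.congr fun N => ?_
  congr 1
  rw [Finset.sum_filter]
  refine Finset.sum_congr rfl fun n hn => ?_
  have hn1 := (Finset.mem_Icc.1 hn).1
  show f n * Pool.Agent.TH465.OM.ind P n = if Q n then f n else 0
  by_cases h1 : P n
  · rw [Pool.Agent.TH465.OM.ind_of h1, if_pos ((hPQ n hn1).1 h1), mul_one]
  · rw [Pool.Agent.TH465.OM.ind_not h1, if_neg (fun h2 => h1 ((hPQ n hn1).2 h2)), mul_zero]

theorem short {g : ℕ → ℝ} {α : ℝ} (h : HasShortMean g α) : Pool.Agent.TH465.OM.Sh (fun n => g n - α) := by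
  intro ε hε
  obtain ⟨H, hH, h1⟩ := h.2 ε hε
  refine ⟨H, hH, ?_⟩
  filter_upwards [h1] with N hN
  refine le_trans (le_of_eq ?_) hN
  unfold Pool.Agent.H499R2.ND.cnt
  congr 2
  ext n
  rw [Set.mem_ofPred_eq, Set.mem_ofPred_eq]
  show 1 ≤ n ∧ n ≤ N ∧ ε * (H : ℝ) < |∑ j ∈ Finset.range H, (g (n + j) - α)| ↔ _
  rw [Finset.sum_sub_distrib, Finset.sum_const, Finset.card_range, nsmul_eq_mul, mul_comm (H : ℝ) α]

/-- THE LIMIT LAW OF THE SCALED TOTAL STOPPING TIMES AND PRIME FACTORS. -/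
theorem result : ∃ (δ : ℝ) (q : ℝ → ℝ), 0 < δ ∧ δ ≤ 1 ∧
    (δ = 1 ↔ ∀ n : ℕ, 1 ≤ n → ∃ k, T^[k] n = 1) ∧
    (∀ (P : ℕ → Prop) (c : ℝ), Basic δ P c →
      HasDensity P c ∧
      (∀ e Q r : ℕ, 1 ≤ Q → HasDensity (fun n =>
        ArithmeticFunction.cardFactors n % 2 = e % 2 ∧ n % Q = r % Q ∧ P n) (c / (2 * Q))) ∧
      (∀ Q r : ℕ, 1 ≤ Q →
        HasMeanOn (fun n => n % Q = r % Q ∧ P n) (fun n => (ArithmeticFunction.moebius n : ℝ)) 0) ∧
      (∀ (g : ℕ → ℝ) (α : ℝ), HasShortMean g α → HasMeanOn P g (α * c))) ∧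
    (∀ lam : ℝ, 1 ≤ lam → 1 - 1 / lam ≤ q lam ∧ q lam ≤ 1 ∧
      ∀ (m : ℕ) (a b : ℤ), 1 ≤ m → ∀ (x : ℝ) (e : ℕ), HasDensity (fun n =>
        ArithmeticFunction.cardFactors n % 2 = e % 2 ∧ Level m a b x n ∧
          ∀ k, ((T^[k] n : ℕ) : ℝ) ≤ lam * n) (δ * Phi x * q lam / (2 * m ^ 2))) := by
  obtain ⟨δ, q, h0, h1, h2, h3, h4, h5, h6⟩ := Pool.Agent.TH465.OM.laws
  refine ⟨δ, q, h0, h1, h2, ?_, fun lam hl => ⟨(h3 lam hl).1, (h3 lam hl).2, fun m a b hm x e => ?_⟩⟩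
  · have key : ∀ (P P' : ℕ → Prop) (c : ℝ), (∀ n, 1 ≤ n → (P n ↔ P' n)) → Pool.Agent.H499R2.ND.Dn P c →
        Pool.Agent.H499R2.ND.Dn (fun n => ¬ (P n ↔ P (n + 1))) 0 →
        HasDensity P' c ∧
      (∀ e Q r : ℕ, 1 ≤ Q → HasDensity (fun n =>
        ArithmeticFunction.cardFactors n % 2 = e % 2 ∧ n % Q = r % Q ∧ P' n) (c / (2 * Q))) ∧
      (∀ Q r : ℕ, 1 ≤ Q →
        HasMeanOn (fun n => n % Q = r % Q ∧ P' n) (fun n => (ArithmeticFunction.moebius n : ℝ)) 0) ∧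
      (∀ (g : ℕ → ℝ) (α : ℝ), HasShortMean g α → HasMeanOn P' g (α * c)) := by
      intro P P' c hPP hP hE
      obtain ⟨g1, g2, g3⟩ := Pool.Agent.TH465.OM.basic hP hE
      refine ⟨Pool.Agent.H499R2.LT.Dn_iff hPP hP, fun e Q r hQ => ?_, fun Q r hQ => ?_, fun g α hg => ?_⟩
      · have h7 := g1 e Q r hQ
        rw [show c / (Q : ℝ) / 2 = c / (2 * Q) by rw [div_div, mul_comm]] at h7
        refine Pool.Agent.H499R2.LT.Dn_iff (fun n hn => ?_) h7
        rw [hPP n hn]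
      · refine mn_on (g2 Q r hQ) fun n hn => ?_
        rw [hPP n hn]
      · obtain ⟨B, hB⟩ := hg.1
        exact mn_on (g3 g α B hB (short hg)) hPP
    rintro P c (⟨m, a, b, x, hm, rfl, rfl⟩ | ⟨rfl, rfl⟩)
    · obtain ⟨h7, h8⟩ := h5 m a b hm x
      have e : δ / (m : ℝ) ^ 2 * Pool.Agent.H499R2.ND.Phi x = δ * Phi x / m ^ 2 := by
        unfold Phi
        rw [← Pool.Agent.H499R2.ND.phi_cdf]
        ring
      rw [e] at h7
      exact key _ _ _ (fun n hn => level_iff m a b x hn) h7 h8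
    · refine key _ _ _ (fun n _ => ?_) h4 Pool.Agent.TH465.OM.inf_next
      rw [not_exists]
      exact Iff.rfl
  · have h7 := h6 m a b hm x lam hl e
    have e1 : δ / (m : ℝ) ^ 2 * Pool.Agent.H499R2.ND.Phi x * q lam / 2 = δ * Phi x * q lam / (2 * m ^ 2) := by
      unfold Phi
      rw [← Pool.Agent.H499R2.ND.phi_cdf]
      field_simp
    rw [e1] at h7
    refine Pool.Agent.H499R2.LT.Dn_iff (fun n hn => ?_) h7
    rw [level_iff m a b x hn]
    exact Iff.rfl

end Pool.Agent.Results.MP_f7abf1_nt.ParityOfPrimeFactors
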