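import Pool.Agent.TH465.SC.Conc
import Pool.Agent.TH465.PP.Level

set_option autoImplicit false

/-!
The scaled total stopping times of the `3x+1` function along sums and differences with primes.

Among the integers `n - p - q` (`p`, `q` prime, for every large `n`), `p - k` (`p` prime, for almost all
`k`) and `n - p` (`p` prime, for almost all `n`) the scaled total stopping times have the same limit
distribution as at all positive integers: the normal law at the scale of the standard deviation, mass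
`δ` at the average value `2 / log (4/3)` and mass `1 - δ` at `∞`.
-/

namespace Pool.Agent.Results.MP_f7abf1_nt.SumsWithPrimes

open Filter Topology
open scoped ENNReal

/-- the `3x+1` function -/
def T (n : ℕ) : ℕ := if n % 2 = 0 then n / 2 else (3 * n + 1) / 2

/-- the total stopping time, the least `k` with `T^k(n) = 1`, and `⊤ = ∞` if there is none -/
noncomputable def sigma (n : ℕ) : ℕ∞ := sInf {k : ℕ∞ | ∃ j : ℕ, T^[j] n = 1 ∧ k = j}

/-- The scaled total stopping time `γ_∞(n) = σ_∞(n) / log n` in `[0, ∞]`. -/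
noncomputable def scaled (n : ℕ) : ℝ≥0∞ := (sigma n : ℝ≥0∞) / ENNReal.ofReal (Real.log n)

/-- the positive integers with the property `P` have the natural density `δ` -/
def HasDensity (P : ℕ → Prop) (δ : ℝ) : Prop :=
  Tendsto (fun N : ℕ => ({n : ℕ | 1 ≤ n ∧ n ≤ N ∧ P n}.ncard : ℝ) / N) atTop (𝓝 δ)

/-- `2 / log (4/3) * log n + x * log 3 * √(2 log n / (log (4/3))^3)` -/
noncomputable def bound (x : ℝ) (n : ℕ) : ℝ :=
  2 / Real.log (4 / 3) * Real.log n
    + x * (Real.log 3 * Real.sqrt (2 * Real.log n / Real.log (4 / 3) ^ 3))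

/-- The distribution function of the standard normal law. -/
noncomputable def Phi (x : ℝ) : ℝ :=
  ProbabilityTheory.cdf (ProbabilityTheory.gaussianReal 0 1) x

/-- The total stopping time of `n` is finite, at most `bound x n` and congruent to `r` modulo `m`. -/
def Level (m : ℕ) (r : ℤ) (x : ℝ) (n : ℕ) : Prop :=
  ∃ t : ℕ, sigma n = t ∧ (t : ℝ) ≤ bound x n ∧ (t : ℤ) ≡ r [ZMOD m]

/-- the pairs of primes `(p, q)` with `p + q < n` -/
def Pairs (n : ℕ) : Finset (ℕ × ℕ) :=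
  (Finset.range n ×ˢ Finset.range n).filter (fun z => z.1.Prime ∧ z.2.Prime ∧ z.1 + z.2 < n)

/-- the primes in `(k, k + N]` -/
def Shifted (k N : ℕ) : Finset ℕ := (Finset.Ioc k (k + N)).filter Nat.Prime

/-- the primes below `n` -/
def Below (n : ℕ) : Finset ℕ := (Finset.range n).filter Nat.Prime

/-- The statement that among the integers `n - p - q` for every large `n`, and among the `p - k` and
`n - p` for almost all `k` and `n`, the proportion of the integers with the property `P` is `d`. -/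
def AlongPrimes (P : ℕ → Prop) (d : ℝ) : Prop :=
  ∀ ε : ℝ, 0 < ε →
    (∃ n₀ : ℕ, ∀ n : ℕ, n₀ ≤ n →
      |({z : ℕ × ℕ | z ∈ Pairs n ∧ P (n - z.1 - z.2)}.ncard : ℝ) * Real.log n ^ 2 - d * (n ^ 2 / 2)| ≤ ε * n ^ 2) ∧
    (∀ A : ℕ, ∃ N₀ : ℕ, ∀ N : ℕ, N₀ ≤ N → ∃ X : Finset ℕ, (X.card : ℝ) * Real.log N ^ A ≤ N ∧
      ∀ k ∈ Finset.Icc 1 N, k ∉ X →
      |({p : ℕ | p ∈ Shifted k N ∧ P (p - k)}.ncard : ℝ) * Real.log N - d * N| ≤ ε * N) ∧
    (∀ A : ℕ, ∃ N₀ : ℕ, ∀ N : ℕ, N₀ ≤ N → ∃ X : Finset ℕ, (X.card : ℝ) * Real.log N ^ A ≤ N ∧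
      ∀ n ∈ Finset.Ioc N (2 * N), n ∉ X →
      |({p : ℕ | p ∈ Below n ∧ P (n - p)}.ncard : ℝ) * Real.log n - d * n| ≤ ε * n)

/-- The statement that the average of `g` over the same integers is asymptotically `d`. -/
def AverageAlongPrimes (g : ℕ → ℝ) (d : ℝ) : Prop :=
  ∀ ε : ℝ, 0 < ε →
    (∃ n₀ : ℕ, ∀ n : ℕ, n₀ ≤ n →
      |(∑ z ∈ Pairs n, g (n - z.1 - z.2)) * Real.log n ^ 2 - d * (n ^ 2 / 2)| ≤ ε * n ^ 2) ∧
    (∀ A : ℕ, ∃ N₀ : ℕ, ∀ N : ℕ, N₀ ≤ N → ∃ X : Finset ℕ, (X.card : ℝ) * Real.log N ^ A ≤ N ∧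
      ∀ k ∈ Finset.Icc 1 N, k ∉ X →
      |(∑ p ∈ Shifted k N, g (p - k)) * Real.log N - d * N| ≤ ε * N) ∧
    (∀ A : ℕ, ∃ N₀ : ℕ, ∀ N : ℕ, N₀ ≤ N → ∃ X : Finset ℕ, (X.card : ℝ) * Real.log N ^ A ≤ N ∧
      ∀ n ∈ Finset.Ioc N (2 * N), n ∉ X →
      |(∑ p ∈ Below n, g (n - p)) * Real.log n - d * n| ≤ ε * n)

theorem along_of {P : ℕ → Prop} {d : ℝ} (h : Pool.Agent.TH465.SC.AP P d) : AlongPrimes P d := by
  intro ε hε
  obtain ⟨h1, h2, h3⟩ := h ε hε
  exact ⟨eventually_atTop.1 h1, fun A => eventually_atTop.1 (h2 A), fun A => eventually_atTop.1 (h3 A)⟩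

theorem average_of {g : ℕ → ℝ} {d : ℝ} (h : Pool.Agent.TH465.SC.AS g d) : AverageAlongPrimes g d := by
  intro ε hε
  obtain ⟨h1, h2, h3⟩ := h ε hε
  exact ⟨eventually_atTop.1 h1, fun A => eventually_atTop.1 (h2 A), fun A => eventually_atTop.1 (h3 A)⟩

open Pool.Agent.H499R2.HL in
theorem sigma_eq {n k : ℕ} (h : H k n) : sigma n = k := by
  unfold sigma
  apply le_antisymm
  · exact sInf_le ⟨k, h.1, rfl⟩
  · refine le_sInf ?_
    rintro j ⟨i, hi, rfl⟩
    have : k ≤ i := by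
      by_contra hlt
      exact h.2 i (by omega) hi
    exact_mod_cast this

open Pool.Agent.H499R2.HL in
theorem exists_H {n j : ℕ} (h : T^[j] n = 1) : ∃ k, H k n := by
  classical
  have hex : ∃ k, T^[k] n = 1 := ⟨j, h⟩
  exact ⟨Nat.find hex, Nat.find_spec hex, fun i hi => Nat.find_min hex hi⟩

open Pool.Agent.H499R2.HL in
theorem sigma_top {n : ℕ} (h : ¬ ∃ k, H k n) : sigma n = ⊤ := by
  unfold sigma
  have : {k : ℕ∞ | ∃ j : ℕ, T^[j] n = 1 ∧ k = j} = ∅ := by
    rw [Set.eq_empty_iff_forall_notMem]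
    rintro k ⟨j, hj, _⟩
    exact h (exists_H hj)
  rw [this, sInf_empty]

open Pool.Agent.H499R2.HL in
theorem sigma_ne_top {n : ℕ} : sigma n ≠ ⊤ ↔ ∃ k, H k n := by
  constructor
  · intro h
    by_contra hcon
    exact h (sigma_top hcon)
  · rintro ⟨k, hk⟩
    rw [sigma_eq hk]
    exact ENat.natCast_ne_top k

open Pool.Agent.H499R2.HL in
theorem sigma_iff {n k : ℕ} : sigma n = k ↔ H k n := by
  constructor
  · intro h
    obtain ⟨k', hk'⟩ := sigma_ne_top.1 (show sigma n ≠ ⊤ by rw [h]; exact ENat.natCast_ne_top k)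
    have h1 := sigma_eq hk'
    rw [h] at h1
    have h2 : k = k' := by exact_mod_cast h1
    rw [h2]; exact hk'
  · exact sigma_eq

theorem level_iff (m : ℕ) (r : ℤ) (x : ℝ) (n : ℕ) : Pool.Agent.TH465.PP.Lv Pool.Agent.TH465.PP.valK
    (Pool.Agent.TH465.PP.clsK m r) (Pool.Agent.TH465.PP.th Pool.Agent.TH465.PP.A0 Pool.Agent.TH465.PP.c0 x) n ↔
    Level m r x n := by
  have hb : bound x n = Pool.Agent.W36.JL.bd x n := rfl
  rw [Pool.Agent.TH465.PP.lv_iff]
  unfold Level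
  rw [hb]
  unfold Pool.Agent.W36.JL.EB
  constructor
  · rintro ⟨t, h2, h1, h3⟩
    exact ⟨t, sigma_iff.2 h1, h2, h3⟩
  · rintro ⟨t, h1, h2, h3⟩
    exact ⟨t, h2, sigma_iff.1 h1, h3⟩

theorem scaled_top {n : ℕ} (h : sigma n = ⊤) : scaled n = ⊤ := by
  unfold scaled
  rw [h, ENat.toENNReal_top]
  exact ENNReal.top_div_of_ne_top ENNReal.ofReal_ne_top

open Pool.Agent.H499R2.HL in
theorem scaled_eq {n k : ℕ} (h : H k n) : scaled n = ENNReal.ofReal ((k : ℝ) / Real.log n) := by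
  unfold scaled
  rw [sigma_eq h, ENat.toENNReal_coe, ← ENNReal.ofReal_natCast]
  rcases (Real.log_natCast_nonneg n).eq_or_lt with h0 | h0
  · have hk : k = 0 := by
      rcases Nat.lt_trichotomy n 1 with h1 | h1 | h1
      · exfalso
        have hn : n = 0 := by omega
        subst hn
        have h2 : ∀ j : ℕ, Pool.Agent.H499R2.ND.Tn^[j] 0 = 0 := by
          intro j
          induction j with
          | zero => rfl
          | succ j ih => rw [Function.iterate_succ_apply', ih]; rfl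
        have := h.1
        rw [h2] at this
        omega
      · subst h1
        by_contra hk
        exact h.2 0 (by omega) rfl
      · exfalso
        have : 0 < Real.log (n : ℝ) := Real.log_pos (by exact_mod_cast h1)
        linarith
    subst hk
    simp
  · rw [ENNReal.ofReal_div_of_pos h0]

/-- THE SCALED TOTAL STOPPING TIMES ALONG PRIMES. Let `δ > 0` be the natural density of the positive
integers with finite total stopping time (`δ = 1` if and only if all are of this kind). In the sense of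
`AlongPrimes` and `AverageAlongPrimes`:
(1) the `m` with `γ_∞(m) = ∞` have proportion `1 - δ`;
(2) the `m` with `σ_∞(m)` finite, congruent to `r` modulo `q` and at most
`2 / log (4/3) * log m + x * log 3 * √(2 log m / (log (4/3))^3)` have proportion `δ * Phi x / q`;
(3) for every continuous function `h` on `[0, ∞]` the average of `h(γ_∞(m))` is
`δ * h(2 / log (4/3)) + (1 - δ) * h(∞)`. -/
theorem result : ∃ δ : ℝ, 0 < δ ∧ δ ≤ 1 ∧ (δ = 1 ↔ ∀ n : ℕ, 1 ≤ n → sigma n ≠ ⊤) ∧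
    HasDensity (fun n => sigma n ≠ ⊤) δ ∧
    AlongPrimes (fun n => scaled n = ⊤) (1 - δ) ∧
    (∀ (q : ℕ) (r : ℤ) (x : ℝ), 1 ≤ q → AlongPrimes (Level q r x) (δ * Phi x / q)) ∧
    (∀ h : ℝ≥0∞ → ℝ, Continuous h → AverageAlongPrimes (fun n => h (scaled n))
      (δ * h (ENNReal.ofReal (2 / Real.log (4 / 3))) + (1 - δ) * h ⊤)) := by
  classical
  obtain ⟨δ, hδ, h2, h3⟩ := Pool.Agent.TH465.PP.denK
  have hT : ∀ n : ℕ, sigma n ≠ ⊤ ↔ ∃ k : ℕ, T^[k] n = 1 := by
    intro n
    rw [sigma_ne_top]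
    constructor
    · rintro ⟨k, hk⟩; exact ⟨k, hk.1⟩
    · rintro ⟨k, hk⟩; exact exists_H hk
  have hst : ∀ n : ℕ, scaled n = ⊤ ↔ ¬ ∃ k, Pool.Agent.H499R2.HL.H k n := by
    intro n
    constructor
    · rintro hs ⟨k, hk⟩
      rw [scaled_eq hk] at hs
      exact ENNReal.ofReal_ne_top hs
    · intro hn
      exact scaled_top (sigma_top hn)
  have hfin : Pool.Agent.TH465.HP.App (fun _ z => 0 < z ∧ (fun n : ℕ => ∃ k, Pool.Agent.H499R2.HL.H k n) z.toNat) δ := by
    have h := Pool.Agent.TH465.HP.App_fin hδ.fin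
    have e : (fun (_ : ℕ) (z : ℤ) => 0 < z ∧ (fun n : ℕ => ∃ k, Pool.Agent.H499R2.HL.H k n) z.toNat) =
        fun _ => Pool.Agent.TH465.HP.Dat (fun _ _ => True) := by
      funext _ z
      exact propext (Pool.Agent.TH465.HP.dat_true z).symm
    rw [e]; exact h
  have hinf := Pool.Agent.TH465.SC.AP_not (P := fun n => ∃ k, Pool.Agent.H499R2.HL.H k n) hfin
  have hvn : ∀ k o : ℕ, 0 ≤ Pool.Agent.TH465.PP.valK k o := fun k o => Nat.cast_nonneg _
  refine ⟨δ, hδ.pos, hδ.le_one, ?_, ?_, ?_, fun q r x hq => ?_, fun h hc => ?_⟩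
  · rw [h2]
    exact forall₂_congr fun n _ => (hT n).symm
  · have : HasDensity (fun n => ∃ k : ℕ, T^[k] n = 1) δ := h3
    simpa only [hT] using this
  · have e : (fun n => scaled n = ⊤) = fun n => ¬ ∃ k, Pool.Agent.H499R2.HL.H k n := by
      funext n
      exact propext (hst n)
    rw [e]
    exact along_of hinf
  · have h4 := Pool.Agent.TH465.SC.AP_of (P := Pool.Agent.TH465.PP.Lv Pool.Agent.TH465.PP.valK
      (Pool.Agent.TH465.PP.clsK q r) (Pool.Agent.TH465.PP.th Pool.Agent.TH465.PP.A0 Pool.Agent.TH465.PP.c0 x))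
      (Pool.Agent.TH465.PP.app_level hδ hq r x)
    have e : Level q r x = Pool.Agent.TH465.PP.Lv Pool.Agent.TH465.PP.valK
      (Pool.Agent.TH465.PP.clsK q r) (Pool.Agent.TH465.PP.th Pool.Agent.TH465.PP.A0 Pool.Agent.TH465.PP.c0 x) := by
      funext n
      exact propext (level_iff q r x n).symm
    rw [e]
    unfold Phi
    rw [← Pool.Agent.H499R2.ND.phi_cdf]
    exact along_of h4
  · apply average_of
    set M : ℝ := ‖BoundedContinuousFunction.mkOfCompact (⟨h, hc⟩ : C(ℝ≥0∞, ℝ))‖ with hM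
    have hMb : ∀ t : ℝ≥0∞, |h t| ≤ M := fun t =>
      (BoundedContinuousFunction.mkOfCompact (⟨h, hc⟩ : C(ℝ≥0∞, ℝ))).norm_coe_le_norm t
    refine Pool.Agent.TH465.SC.AS_of (P2 := fun n => ¬ ∃ k, Pool.Agent.H499R2.HL.H k n) (fun n => hMb _)
      (hMb _) (hMb _) ?_ ?_ hinf Pool.Agent.TH465.SC.AP_true
    · intro κ hκ
      have hcont : Continuous (fun t : ℝ => h (ENNReal.ofReal t)) := hc.comp ENNReal.continuous_ofReal
      obtain ⟨r, hr, hr'⟩ := Metric.continuousAt_iff.1 (hcont.continuousAt (x := 2 / Real.log (4 / 3))) κ hκ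
      refine ⟨Pool.Agent.TH465.SC.Conc Pool.Agent.TH465.PP.valK Pool.Agent.TH465.PP.A0 (r / 2), ?_, ?_, ?_⟩
      · rintro n ⟨k, hk, hd⟩
        have := hr' (x := (k : ℝ) / Real.log n) (by
          rw [Real.dist_eq]
          exact lt_of_le_of_lt hd (by linarith))
        rw [Real.dist_eq] at this
        rw [scaled_eq hk]
        exact this.le
      · rintro n ⟨k, hk, _⟩ hn
        exact hn ⟨k, hk⟩
      · exact Pool.Agent.TH465.SC.AP_of (Pool.Agent.TH465.SC.app_conc Pool.Agent.TH465.PP.A0_pos.le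
          Pool.Agent.TH465.PP.c0_pos hvn hδ.fin hδ.lawG (by positivity))
    · intro n hn
      rw [(hst n).2 hn]

end Pool.Agent.Results.MP_f7abf1_nt.SumsWithPrimes
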